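import Mathlib

set_option autoImplicit false

/-! The fixed point of a family of contractions of a disc is of class `C²`. -/

open Filter Topology

namespace Pool.Agent.J4H3.LA

theorem fix (T : ℝ → ℂ → ℂ) (κ : ℝ) (hκ : 0 < κ)
    (hc : ∀ s v, ‖v‖ < κ → ContDiffAt ℝ 2 (fun y : ℝ × ℂ => T y.1 y.2) (s, v))
    (hb : ∀ s v, ‖v‖ ≤ κ → ‖T s v‖ ≤ κ / 2)
    (hl : ∀ s v v', ‖v‖ ≤ κ → ‖v'‖ ≤ κ → ‖T s v - T s v'‖ ≤ ‖v - v'‖ / 2)
    (hp : ∀ s v, ‖v‖ ≤ κ → T (s + 1) v = T s v) :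
    ∃ V : ℝ → ℂ, ContDiff ℝ 2 V ∧ (∀ s, V (s + 1) = V s) ∧ (∀ s, ‖V s‖ ≤ κ / 2) ∧
      ∀ s, T s (V s) = V s := by
  have hex : ∀ s, ∃ v, ‖v‖ ≤ κ ∧ T s v = v := by
    intro s
    have hcomp : IsCompact (Metric.closedBall (0 : ℂ) κ) := isCompact_closedBall _ _
    have hTc : ContinuousOn (T s) (Metric.closedBall (0 : ℂ) κ) := by
      refine (LipschitzOnWith.of_dist_le_mul (K := 1 / 2) ?_).continuousOn
      intro x hx y hy
      rw [mem_closedBall_zero_iff] at hx hy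
      have := hl s x y hx hy
      rw [dist_eq_norm, dist_eq_norm]
      push_cast
      linarith
    have hg : ContinuousOn (fun v => ‖T s v - v‖) (Metric.closedBall (0 : ℂ) κ) :=
      (hTc.sub continuousOn_id).norm
    obtain ⟨v, hv, hmin⟩ := hcomp.exists_isMinOn ⟨0, by simp [hκ.le]⟩ hg
    rw [mem_closedBall_zero_iff] at hv
    refine ⟨v, hv, ?_⟩
    have hTv : ‖T s v‖ ≤ κ := (hb s v hv).trans (by linarith)
    have h1 : ‖T s v - v‖ ≤ ‖T s (T s v) - T s v‖ := hmin (by rwa [mem_closedBall_zero_iff])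
    have h2 := hl s (T s v) v hTv hv
    have h3 : ‖T s v - v‖ = 0 := le_antisymm (by linarith [norm_nonneg (T s v - v)])
      (norm_nonneg _)
    exact sub_eq_zero.1 (norm_eq_zero.1 h3)
  have huniq : ∀ s v v', ‖v‖ ≤ κ → ‖v'‖ ≤ κ → T s v = v → T s v' = v' → v = v' := by
    intro s v v' hv hv' h h'
    have h1 := hl s v v' hv hv'
    rw [h, h'] at h1
    have h3 : ‖v - v'‖ = 0 := le_antisymm (by linarith [norm_nonneg (v - v')]) (norm_nonneg _)
    exact sub_eq_zero.1 (norm_eq_zero.1 h3)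
  choose V hV1 hV2 using hex
  have hV3 : ∀ s, ‖V s‖ ≤ κ / 2 := fun s => by
    have := hb s (V s) (hV1 s)
    rwa [hV2] at this
  refine ⟨V, ?_, fun s => ?_, hV3, hV2⟩
  · rw [contDiff_iff_contDiffAt]
    intro s0
    have hv0 : ‖V s0‖ < κ := (hV3 s0).trans_lt (by linarith)
    have hT := hc s0 (V s0) hv0
    -- continuity of `V`
    have hTs : Tendsto (fun s => T s (V s0)) (𝓝 s0) (𝓝 (V s0)) := by
      have h1 : ContinuousAt (fun y : ℝ × ℂ => T y.1 y.2) (s0, V s0) := hT.continuousAt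
      have h2 : Tendsto (fun s : ℝ => (s, V s0)) (𝓝 s0) (𝓝 (s0, V s0)) :=
        (continuous_id.prodMk continuous_const).tendsto' _ _ rfl
      have h3 := h1.tendsto.comp h2
      simpa [Function.comp_def, hV2 s0] using h3
    have hVc : Tendsto V (𝓝 s0) (𝓝 (V s0)) := by
      rw [tendsto_iff_norm_sub_tendsto_zero]
      have h1 : Tendsto (fun s => 2 * ‖T s (V s0) - V s0‖) (𝓝 s0) (𝓝 0) := by
        have := (tendsto_iff_norm_sub_tendsto_zero.1 hTs).const_mul 2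
        simpa using this
      refine squeeze_zero (fun s => norm_nonneg _) (fun s => ?_) h1
      have h2 := hl s (V s) (V s0) (hV1 s) (hV1 s0)
      have h3 : ‖V s - V s0‖ ≤ ‖T s (V s) - T s (V s0)‖ + ‖T s (V s0) - V s0‖ := by
        calc ‖V s - V s0‖ = ‖(T s (V s) - T s (V s0)) + (T s (V s0) - V s0)‖ := by
              rw [hV2 s]; congr 1; ring
          _ ≤ _ := norm_add_le _ _
      linarith
    -- the inverse function theorem
    set G : ℝ × ℂ → ℝ × ℂ := fun y => (y.1, y.2 - T y.1 y.2) with hG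
    have hGc : ContDiffAt ℝ 2 G (s0, V s0) := contDiffAt_fst.prodMk (contDiffAt_snd.sub hT)
    set D := fderiv ℝ (fun y : ℝ × ℂ => T y.1 y.2) (s0, V s0) with hD
    have hTd : HasFDerivAt (fun y : ℝ × ℂ => T y.1 y.2) D (s0, V s0) :=
      (hT.differentiableAt (by norm_num)).hasFDerivAt
    have hGd : HasFDerivAt G ((ContinuousLinearMap.fst ℝ ℝ ℂ).prod
        (ContinuousLinearMap.snd ℝ ℝ ℂ - D)) (s0, V s0) :=
      hasFDerivAt_fst.prodMk (hasFDerivAt_snd.sub hTd)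
    have hL : ‖D.comp (ContinuousLinearMap.inr ℝ ℝ ℂ)‖ ≤ 1 / 2 := by
      have h1 : HasFDerivAt (fun v : ℂ => T s0 v) (D.comp (ContinuousLinearMap.inr ℝ ℝ ℂ))
          (V s0) := by
        have h2 : HasFDerivAt (fun v : ℂ => ((s0, v) : ℝ × ℂ))
            (ContinuousLinearMap.inr ℝ ℝ ℂ) (V s0) := hasFDerivAt_prodMk_right s0 (V s0)
        exact HasFDerivAt.comp (V s0) hTd h2
      refine h1.le_of_lip' (by norm_num) ?_
      have h3 : ∀ᶠ v in 𝓝 (V s0), ‖v‖ < κ :=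
        (continuous_norm.continuousAt (x := V s0)).eventually_lt continuousAt_const hv0
      filter_upwards [h3] with v hv
      have := hl s0 v (V s0) hv.le (hV1 s0)
      linarith
    have hinj : Function.Injective (((ContinuousLinearMap.fst ℝ ℝ ℂ).prod
        (ContinuousLinearMap.snd ℝ ℝ ℂ - D) : (ℝ × ℂ) →L[ℝ] (ℝ × ℂ)) : (ℝ × ℂ) →ₗ[ℝ] (ℝ × ℂ)) := by
      rw [injective_iff_map_eq_zero]
      rintro ⟨a, w⟩ h
      have h1 : a = 0 := congrArg Prod.fst h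
      have h2 : w - D (a, w) = 0 := congrArg Prod.snd h
      subst h1
      have h3 : w = (D.comp (ContinuousLinearMap.inr ℝ ℝ ℂ)) w := by
        rw [sub_eq_zero] at h2
        simpa using h2
      have h4 : ‖w‖ ≤ 1 / 2 * ‖w‖ := by
        calc ‖w‖ = ‖(D.comp (ContinuousLinearMap.inr ℝ ℝ ℂ)) w‖ := congrArg _ h3
          _ ≤ ‖D.comp (ContinuousLinearMap.inr ℝ ℝ ℂ)‖ * ‖w‖ := ContinuousLinearMap.le_opNorm _ _
          _ ≤ _ := mul_le_mul_of_nonneg_right hL (norm_nonneg _)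
      have h5 : ‖w‖ = 0 := le_antisymm (by linarith [norm_nonneg w]) (norm_nonneg _)
      rw [norm_eq_zero.1 h5]
      rfl
    let e : (ℝ × ℂ) ≃L[ℝ] (ℝ × ℂ) := (LinearEquiv.ofInjectiveEndo _ hinj).toContinuousLinearEquiv
    have he : (e : (ℝ × ℂ) →L[ℝ] (ℝ × ℂ)) = (ContinuousLinearMap.fst ℝ ℝ ℂ).prod
        (ContinuousLinearMap.snd ℝ ℝ ℂ - D) := by
      ext x <;> rfl
    have hGd' : HasFDerivAt G (e : (ℝ × ℂ) →L[ℝ] (ℝ × ℂ)) (s0, V s0) := by rw [he]; exact hGd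
    have hn : (2 : WithTop ℕ∞) ≠ 0 := by norm_num
    have hΨ := hGc.to_localInverse hGd' hn
    set Ψ := hGc.localInverse hGd' hn with hΨdef
    have hG0 : ∀ s, G (s, V s) = (s, 0) := fun s => by
      simp only [hG]
      rw [hV2, sub_self]
    rw [hG0] at hΨ
    have hleft : ∀ᶠ x in 𝓝 (s0, V s0), Ψ (G x) = x :=
      (hGc.hasStrictFDerivAt' hGd' hn).eventually_left_inverse
    have hev : ∀ᶠ s in 𝓝 s0, (Ψ (s, 0)).2 = V s := by
      have h1 : Tendsto (fun s => (s, V s)) (𝓝 s0) (𝓝 (s0, V s0)) := tendsto_id.prodMk_nhds hVc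
      filter_upwards [h1.eventually hleft] with s hs
      rw [← hG0 s, hs]
    have hfin : ContDiffAt ℝ 2 (fun s : ℝ => (Ψ (s, 0)).2) s0 := by
      have h1 : ContDiffAt ℝ 2 (fun s : ℝ => ((s, 0) : ℝ × ℂ)) s0 :=
        contDiffAt_id.prodMk contDiffAt_const
      exact (ContDiffAt.comp (g := Ψ) s0 hΨ h1).snd
    exact hfin.congr_of_eventuallyEq (hev.mono fun s hs => hs.symm)
  · refine huniq s _ _ (hV1 _) (hV1 _) ?_ (hV2 s)
    rw [← hp s _ (hV1 _)]
    exact hV2 (s + 1)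

end Pool.Agent.J4H3.LA
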