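import Pool.Agent.J4H48.LA.Stm
import Pool.Agent.J4H3.LA.FixCore

set_option autoImplicit false

namespace Pool.Agent.J4H3.LA

theorem t_FIX : Pool.Agent.J4H48.LA.S_FIX := fun T κ h1 h2 h3 h4 h5 => fix T κ h1 h2 h3 h4 h5

end Pool.Agent.J4H3.LA
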