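import Mathlib

set_option autoImplicit false

/-! Critical points have real coordinates. -/

open Finset

namespace Pool.Agent.J4H3.LA

theorem im_inv_sum {ι : Type*} (s : Finset ι) (z : ℂ) (p : ι → ℤ) :
    (∑ e ∈ s, (z - p e)⁻¹).im = -z.im * ∑ e ∈ s, (Complex.normSq (z - p e))⁻¹ := by
  rw [Complex.im_sum, Finset.mul_sum]
  refine Finset.sum_congr rfl fun e _ => ?_
  rw [Complex.inv_im]
  simp [div_eq_mul_inv]

theorem core {m : ℕ} (cls : Fin (m + 1) → Fin 3) (pos : Fin (m + 1) → ℤ) (q : Fin 3 → ℂ) (S : ℂ)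
    (h0 : q 0 + q 1 + q 2 = 0) (hne : ∀ e, q (cls e) - pos e ≠ 0) (two : ∃ e f, cls e ≠ cls f)
    (hS : ∀ k, ∑ e ∈ univ.filter (fun e => cls e = k), (q k - pos e)⁻¹ = S) :
    ∀ k, (q k).im = 0 := by
  set W : Fin 3 → ℝ := fun k => ∑ e ∈ univ.filter (fun e => cls e = k),
    (Complex.normSq (q k - pos e))⁻¹ with hW
  have h1 : ∀ k, -(q k).im * W k = S.im := fun k => by
    rw [← hS k, im_inv_sum]
  have hW0 : ∀ k, 0 ≤ W k := fun k => Finset.sum_nonneg fun e _ =>
    inv_nonneg.2 (Complex.normSq_nonneg _)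
  have hWp : ∀ e, 0 < W (cls e) := fun e => by
    refine Finset.sum_pos (fun f hf => ?_) ⟨e, by simp⟩
    have h2 : cls f = cls e := (Finset.mem_filter.1 hf).2
    have h3 := hne f
    rw [h2] at h3
    exact inv_pos.2 (Complex.normSq_pos.2 h3)
  have him : (q 0).im + (q 1).im + (q 2).im = 0 := by
    have := congrArg Complex.im h0
    simpa using this
  obtain ⟨e, f, hef⟩ := two
  have he := hWp e
  have hf := hWp f
  rcases lt_trichotomy S.im 0 with hs | hs | hs
  · exfalso
    have h2 : ∀ k, 0 < (q k).im := fun k => by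
      have h3 := h1 k
      have h4 := hW0 k
      by_contra hcon
      push Not at hcon
      nlinarith
    linarith [h2 0, h2 1, h2 2]
  · rw [hs] at h1
    have h2 : ∀ e, (q (cls e)).im = 0 := fun e => by
      have h3 := h1 (cls e)
      rcases mul_eq_zero.1 h3 with h4 | h4
      · linarith
      · exact absurd h4 (hWp e).ne'
    have he2 := h2 e
    have hf2 := h2 f
    generalize cls e = a at hef he2
    generalize cls f = b at hef hf2
    intro k
    fin_cases a <;> fin_cases b <;> fin_cases k <;> simp_all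
  · exfalso
    have h2 : ∀ k, (q k).im < 0 := fun k => by
      have h3 := h1 k
      have h4 := hW0 k
      by_contra hcon
      push Not at hcon
      nlinarith
    linarith [h2 0, h2 1, h2 2]

end Pool.Agent.J4H3.LA
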